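import Pool.Agent.RHO.Stmts4

/-! # MP_ca8ef3_an, stage 3, row NM3 (numbers) -/

set_option autoImplicit false

namespace Pool.Agent.RHO.H36d

theorem quarter (b : ℕ) : (1:ℝ) / 4 ≤ (1 - 1 / 2 ^ (b + 1)) ^ (2 ^ (b + 1)) := by
  induction b with
  | zero => norm_num
  | succ b ih =>
    have h1 : (1 - 1 / 2 ^ (b + 1 + 1) : ℝ) ^ (2 ^ (b + 1 + 1)) =
        ((1 - 1 / 2 ^ (b + 1 + 1)) ^ 2) ^ (2 ^ (b + 1)) := by
      rw [← pow_mul]
      congr 1
      ring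
    rw [h1]
    refine ih.trans ?_
    have h2 : (0:ℝ) < 1 / 2 ^ (b + 1) := by positivity
    have h3 : (1:ℝ) / 2 ^ (b + 1) ≤ 1 := by
      rw [div_le_one (by positivity)]
      exact one_le_pow₀ (by norm_num)
    have h4 : (1:ℝ) / 2 ^ (b + 1 + 1) = 1 / 2 ^ (b + 1) / 2 := by
      rw [pow_succ 2 (b + 1)]
      field_simp
    apply pow_le_pow_left₀ (by linarith)
    rw [h4]
    nlinarith

/-- row NM3 -/
theorem nm3 : NM3Stmt := by
  intro a ha
  obtain ⟨b, rfl⟩ : ∃ b, a = b + 2 := ⟨a - 2, by omega⟩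
  have h1 := quarter b
  have h2 : pm (b + 2) = b + 1 := by unfold pm; omega
  rw [h2]
  have h3 : pt (b + 2) = 2 ^ (b + 1) * (16 * (b + 2) + 52) := by
    unfold pt
    ring
  rw [h3, pow_mul]
  have h4 : (1:ℝ) / (2 ^ (32 * (b + 2) + 104) : ℕ) = (1 / 4) ^ (16 * (b + 2) + 52) := by
    rw [one_div_pow]
    congr 1
    push_cast
    have : (4:ℝ) = 2 ^ 2 := by norm_num
    rw [this, ← pow_mul]
    congr 1
    ring
  rw [h4]
  exact pow_le_pow_left₀ (by norm_num) h1 _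

end Pool.Agent.RHO.H36d
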