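import Pool.Agent.RHO.Stmts2
import Pool.Agent.RHO.Kit2
import Pool.Agent.RHO.BAD

/-!
# MP_ca8ef3_an, stage 2: row BAD2 (few bad neighbours)
-/

set_option autoImplicit false

namespace Pool.Agent.RHO.H36d

open Finset Pool.Agent.RHO Pool.Agent.RHO.Bad33

section

variable {q N D g M : ℕ} {X Ω J : Type} [Fintype Ω] [DecidableEq J] {κ : ℝ}

theorem ip_gv2 (C : Cfg2 q N D g M X Ω J κ) (j : J × Fin M) (x y : X) (a b : ℝ)
    (u v : X) :
    ip (fun l => C.gv j x l - a * C.gv j u l) (fun l => C.gv j y l - b * C.gv j v l) =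
      C.R ^ 2 / N * (ip (C.s j x) (C.s j y) - b * ip (C.s j x) (C.s j v)
        - a * ip (C.s j u) (C.s j y) + a * b * ip (C.s j u) (C.s j v)) := by
  have hN : (0:ℝ) < N := by exact_mod_cast C.hN
  have hs : (√(N:ℝ)) ^ 2 = N := Real.sq_sqrt hN.le
  have hs0 : √(N:ℝ) ≠ 0 := (Real.sqrt_pos.2 hN).ne'
  have key : C.R ^ 2 / N = (C.R / √N) * (C.R / √N) := by
    rw [div_mul_div_comm, ← sq, ← sq, hs]
  rw [key]
  simp only [ip, Cfg2.gv, Finset.mul_sum, ← Finset.sum_sub_distrib, ← Finset.sum_add_distrib]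
  refine Finset.sum_congr rfl fun l _ => ?_
  ring

theorem bad2 : BAD2Stmt := by
  intro q N D g M X Ω J _ _ κ C j u ψ S hψ hbad
  classical
  have hq := C.hq
  have hN : (0:ℝ) < N := by exact_mod_cast C.hN
  have hr0 := rr_nonneg hq
  have hr1 : rr q ≤ 1 := rr_le_one
  have hd0 := dl_pos hq
  have hd1 := dl_le_one hq
  have hR := C.hR
  have hR2 : 1 ≤ C.R ^ 2 := by nlinarith
  have hτ := C.hτ
  have hX : Nonempty X := ⟨C.S.base⟩
  choose! xx hxe hxd hxψ using hbad
  have hκ := C.hκ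
  set a : Fin D → ℝ := fun e => rr q ^ C.S.dd u (xx e) with ha
  set z : Fin D → Fin N → ℝ := fun e l => C.gv j (xx e) l - a e * C.gv j u l with hz
  have haK : ∀ e ∈ S, C.S.K u (xx e) = a e := fun e he => C.S.K_side u e (xx e) (hxe e he)
  have ha0 : ∀ e, 0 ≤ a e := fun e => pow_nonneg hr0 _
  have ha1 : ∀ e, a e ≤ 1 := fun e => pow_le_one₀ hr0 hr1
  have hgram : ∀ x y, |ip (C.s j x) (C.s j y) - N * C.S.K x y| ≤ C.τ * N := by
    intro x y
    simpa using C.gram j j x y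
  have hguu : |ip (C.s j u) (C.s j u) - N| ≤ C.τ * N := by
    simpa [C.K_self] using hgram u u
  -- the scalar products of different vectors
  have hoff : ∀ e ∈ S, ∀ e' ∈ S, e ≠ e' → |ip (z e) (z e')| ≤ (4 * C.τ + κ) * C.R ^ 2 := by
    intro e he e' he' hne
    have hnot : ¬ C.S.side u e (xx e') := fun h => hne (C.S.side_unique u (xx e') e e' h (hxe e' he'))
    have hpr := C.S.prod u e (xx e) (xx e') (hxe e he) (hxd e he) hnot
    rw [haK e he, haK e' he'] at hpr
    rw [hz, ip_gv2, abs_mul, abs_of_nonneg (by positivity)]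
    have h1 : |(ip (C.s j (xx e)) (C.s j (xx e')) - N * (C.S.K (xx e) (xx e') - a e * a e'))
        - N * (a e * a e')| ≤ C.τ * N := by
      have := hgram (xx e) (xx e')
      refine le_trans (le_of_eq ?_) this
      congr 1
      ring
    have h2 : |ip (C.s j (xx e)) (C.s j u) - N * a e| ≤ C.τ * N := by
      have := hgram (xx e) u
      rwa [C.K_symm (xx e) u, haK e he] at this
    have h3 : |ip (C.s j u) (C.s j (xx e')) - N * a e'| ≤ C.τ * N := by
      have := hgram u (xx e')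
      rwa [haK e' he'] at this
    have h4 := alg N (a e) (a e') _ _ _ _ (C.τ * N) (ha0 e) (ha1 e) (ha0 e') (ha1 e') h1 h2 h3 hguu
    have h5 : |(N:ℝ) * (C.S.K (xx e) (xx e') - a e * a e')| ≤ N * κ := by
      rw [abs_mul, abs_of_pos hN]
      exact mul_le_mul_of_nonneg_left hpr hN.le
    have h6 : |ip (C.s j (xx e)) (C.s j (xx e')) - a e' * ip (C.s j (xx e)) (C.s j u) -
        a e * ip (C.s j u) (C.s j (xx e')) + a e * a e' * ip (C.s j u) (C.s j u)| ≤
        4 * (C.τ * N) + N * κ := by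
      rw [abs_le] at h4 h5 ⊢
      constructor <;> linarith [h4.1, h4.2, h5.1, h5.2]
    calc C.R ^ 2 / N * _ ≤ C.R ^ 2 / N * (4 * (C.τ * N) + N * κ) := by gcongr
      _ = (4 * C.τ + κ) * C.R ^ 2 := by field_simp
  have hdiag : ∀ e ∈ S, ip (z e) (z e) ≤ 2 * C.R ^ 2 := by
    intro e he
    rw [hz, ip_gv2]
    have h1 : |ip (C.s j (xx e)) (C.s j (xx e)) - N| ≤ C.τ * N := by
      simpa [C.K_self] using hgram (xx e) (xx e)
    have h2 : |ip (C.s j (xx e)) (C.s j u) - N * a e| ≤ C.τ * N := by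
      have := hgram (xx e) u
      rwa [C.K_symm (xx e) u, haK e he] at this
    have h4 := alg2 N (a e) _ _ _ (C.τ * N) (ha0 e) (ha1 e) hN.le h1 h2 hguu
    have e1 : ip (C.s j (xx e)) (C.s j (xx e)) - a e * ip (C.s j (xx e)) (C.s j u)
        - a e * ip (C.s j u) (C.s j (xx e)) + a e * a e * ip (C.s j u) (C.s j u) =
        ip (C.s j (xx e)) (C.s j (xx e)) - 2 * a e * ip (C.s j (xx e)) (C.s j u)
          + a e * a e * ip (C.s j u) (C.s j u) := by
      rw [ip_comm (C.s j u) (C.s j (xx e))]; ring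
    rw [e1]
    have h5 : 4 * C.τ * C.R ^ 2 ≤ C.R ^ 2 := by
      have hc2 := C.c2
      have h6 : dl q ^ 2 ≤ 1 := pow_le_one₀ hd0.le hd1
      have h7 : 0 ≤ κ * C.R ^ 2 := mul_nonneg hκ (sq_nonneg _)
      have h8 : 0 ≤ C.τ * C.R ^ 2 := mul_nonneg hτ.le (sq_nonneg _)
      nlinarith
    calc C.R ^ 2 / N * _ ≤ C.R ^ 2 / N * (N + 4 * (C.τ * N)) := by gcongr
      _ = C.R ^ 2 + 4 * C.τ * C.R ^ 2 := by field_simp
      _ ≤ 2 * C.R ^ 2 := by linarith
  -- signs
  set σ : Fin D → ℝ := fun e => if 0 ≤ ip ψ (z e) then 1 else -1 with hσ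
  have hσa : ∀ e, |σ e| = 1 := by
    intro e
    simp only [hσ]
    split_ifs <;> simp
  have hσz : ∀ e, σ e * ip ψ (z e) = |ip ψ (z e)| := by
    intro e
    simp only [hσ]
    split_ifs with h
    · rw [one_mul, abs_of_nonneg h]
    · rw [abs_of_neg (not_le.1 h)]; ring
  have hzψ : ∀ e ∈ S, dl q ≤ |ip ψ (z e)| := by
    intro e he
    have h1 := hxψ e he
    have h2 : ip ψ (z e) = ip ψ (C.gv j (xx e)) - a e * ip ψ (C.gv j u) := by
      simp only [hz, ip, Finset.mul_sum, ← Finset.sum_sub_distrib]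
      refine Finset.sum_congr rfl fun l _ => ?_
      ring
    rw [h2]
    exact h1.le
  set Z : Fin N → ℝ := fun l => ∑ e ∈ S, σ e * z e l with hZ
  have hlow : (S.card : ℝ) * dl q ≤ ip ψ Z := by
    rw [hZ, Bad33.ip_sum_right]
    calc (S.card : ℝ) * dl q = ∑ e ∈ S, dl q := by simp
      _ ≤ ∑ e ∈ S, σ e * ip ψ (z e) := by
          refine Finset.sum_le_sum fun e he => ?_
          rw [hσz]
          exact hzψ e he
  have hup : ip Z Z ≤ 2 * C.R ^ 2 * S.card + (4 * C.τ + κ) * C.R ^ 2 * S.card ^ 2 := by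
    rw [hZ, ip_sum_sum]
    have hterm : ∀ e ∈ S, ∀ e' ∈ S, σ e * σ e' * ip (z e) (z e') ≤
        (if e = e' then 2 * C.R ^ 2 else 0) + (4 * C.τ + κ) * C.R ^ 2 := by
      intro e he e' he'
      by_cases h : e = e'
      · subst h
        have h1 : σ e * σ e = 1 := by
          rw [← abs_mul_abs_self, hσa, one_mul]
        rw [h1, one_mul, if_pos rfl]
        have := hdiag e he
        have h2 : 0 ≤ (4 * C.τ + κ) * C.R ^ 2 := by positivity
        linarith
      · rw [if_neg h, zero_add]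
        refine le_trans (le_abs_self _) ?_
        rw [abs_mul, abs_mul, hσa, hσa, one_mul, one_mul]
        exact hoff e he e' he' h
    calc ∑ e ∈ S, ∑ e' ∈ S, σ e * σ e' * ip (z e) (z e')
        ≤ ∑ e ∈ S, ∑ e' ∈ S, ((if e = e' then 2 * C.R ^ 2 else 0) + (4 * C.τ + κ) * C.R ^ 2) :=
          Finset.sum_le_sum fun e he => Finset.sum_le_sum fun e' he' => hterm e he e' he'
      _ = 2 * C.R ^ 2 * S.card + (4 * C.τ + κ) * C.R ^ 2 * S.card ^ 2 := by
          simp only [Finset.sum_add_distrib, Finset.sum_ite_eq, Finset.sum_const, nsmul_eq_mul]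
          rw [Finset.sum_ite_mem, Finset.inter_self]
          simp only [Finset.sum_const, nsmul_eq_mul]
          ring
  have hcs := ip_sq_le ψ Z
  have hZZ : 0 ≤ ip Z Z := by
    unfold ip
    exact Finset.sum_nonneg fun l _ => mul_self_nonneg _
  have h9 : ip ψ Z ^ 2 ≤ 9 * ip Z Z := le_trans hcs (by gcongr)
  have hlow2 : (S.card * dl q) ^ 2 ≤ ip ψ Z ^ 2 := by
    refine pow_le_pow_left₀ (by positivity) hlow 2
  have hc2 := C.c2
  have hmain : (S.card : ℝ) ^ 2 * dl q ^ 2 ≤ 36 * C.R ^ 2 * S.card := by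
    have h1 : (S.card : ℝ) ^ 2 * (18 * (4 * C.τ + κ) * C.R ^ 2) ≤ (S.card : ℝ) ^ 2 * dl q ^ 2 := by
      gcongr
    nlinarith
  rcases Nat.eq_zero_or_pos S.card with h0 | hpos
  · rw [h0]
    simp only [Nat.cast_zero, zero_mul]
    positivity
  · have hp : (0:ℝ) < S.card := by exact_mod_cast hpos
    have h2 : (S.card : ℝ) * (S.card * dl q ^ 2) ≤ S.card * (36 * C.R ^ 2) := by
      nlinarith
    exact le_of_mul_le_mul_left h2 hp

end

end Pool.Agent.RHO.H36d
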