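import Pool.Agent.RHO.Stmts2
import Pool.Agent.RHO.Kit2

/-!
# MP_ca8ef3_an, stage 2: row CFG2 (existence of the data)
-/

set_option autoImplicit false

namespace Pool.Agent.RHO.H36d

open Finset Pool.Agent.RHO

theorem two_le_exp : (2:ℝ) ≤ Real.exp (7 / 10) := by
  have h2 := Real.log_two_lt_d9
  calc (2:ℝ) = Real.exp (Real.log 2) := (Real.exp_log (by norm_num)).symm
    _ ≤ Real.exp (7 / 10) := Real.exp_le_exp.mpr (by linarith)

theorem two_pow_le_exp (n : ℕ) : (2:ℝ) ^ n ≤ Real.exp (7 / 10 * n) := by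
  calc (2:ℝ) ^ n ≤ (Real.exp (7 / 10)) ^ n := pow_le_pow_left₀ (by norm_num) two_le_exp _
    _ = Real.exp (n * (7 / 10)) := (Real.exp_nat_mul _ _).symm
    _ = _ := by rw [mul_comm]

theorem cfgnum (a B N cJ cX : ℕ) (ha : 4 ≤ a) (hN : 2 ^ (72 + 20 * a) * (B + 2 ^ (4 * a)) ≤ N)
    (hlog : Real.log (21 * N) ≤ ((2:ℝ) ^ a) ^ 4)
    (hJ : cJ ≤ (2 ^ (72 + 24 * a) * (21 * N) ^ (N / 2 ^ (72 + 24 * a) + 1)) * 2 ^ (19 + 8 * a))
    (hX : cX ≤ 2 ^ B) :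
    4 * (cJ : ℝ) ^ 2 * (cX : ℝ) ^ 2 * Real.exp (-((1 / (2 ^ (34 + 10 * a) : ℝ)) ^ 2 * N / 2)) < 1 := by
  obtain ⟨x, hx⟩ : ∃ x : ℝ, x = 2 ^ a := ⟨_, rfl⟩
  have hx16 : 16 ≤ x := by
    rw [hx]
    calc (16:ℝ) = 2 ^ 4 := by norm_num
      _ ≤ 2 ^ a := pow_le_pow_right₀ (by norm_num) ha
  have hx0 : 0 < x := by linarith
  have hax : (a:ℝ) ≤ x := by
    rw [hx]
    exact_mod_cast (Nat.lt_two_pow_self (n := a)).le
  obtain ⟨m, hm⟩ : ∃ m, m = N / 2 ^ (72 + 24 * a) := ⟨_, rfl⟩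
  rw [← hm] at hJ
  obtain ⟨W, hW⟩ : ∃ W : ℝ, W = N / (2 ^ 69 * x ^ 20) := ⟨_, rfl⟩
  have hNpos : 0 < N := by
    refine lt_of_lt_of_le ?_ hN
    have h1 : 0 < 2 ^ (4 * a) := by positivity
    have h2 : 0 < B + 2 ^ (4 * a) := by omega
    exact Nat.mul_pos (by positivity) h2
  have hN0 : (0:ℝ) < N := by exact_mod_cast hNpos
  have hNx : 2 ^ 72 * x ^ 20 * (B + x ^ 4) ≤ N := by
    have h1 : ((2 ^ (72 + 20 * a) * (B + 2 ^ (4 * a)) : ℕ) : ℝ) ≤ N := by exact_mod_cast hN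
    refine le_trans (le_of_eq ?_) h1
    push_cast
    rw [hx, ← pow_mul, ← pow_mul, pow_add, mul_comm a 20, mul_comm a 4]
  have hmx : m * (2 ^ 72 * x ^ 24) ≤ N := by
    have h1 : m * 2 ^ (72 + 24 * a) ≤ N := by
      rw [hm]
      exact Nat.div_mul_le_self _ _
    have h2 : ((m * 2 ^ (72 + 24 * a) : ℕ) : ℝ) ≤ N := by exact_mod_cast h1
    refine le_trans (le_of_eq ?_) h2
    push_cast
    rw [hx, ← pow_mul, pow_add, mul_comm a 24]
  have hWB : 8 * (B + x ^ 4) ≤ W := by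
    rw [hW, le_div_iff₀ (by positivity)]
    have h1 : 8 * (B + x ^ 4) * (2 ^ 69 * x ^ 20) = 2 ^ 72 * x ^ 20 * (B + x ^ 4) := by ring
    rw [h1]
    exact hNx
  have hWm : 8 * (m * x ^ 4) ≤ W := by
    rw [hW, le_div_iff₀ (by positivity)]
    have h1 : 8 * (m * x ^ 4) * (2 ^ 69 * x ^ 20) = m * (2 ^ 72 * x ^ 24) := by ring
    rw [h1]
    exact hmx
  have hWe : (1 / (2 ^ (34 + 10 * a) : ℝ)) ^ 2 * N / 2 = W := by
    rw [hW, hx]
    have h1 : (2:ℝ) ^ (34 + 10 * a) = 2 ^ 34 * (2 ^ a) ^ 10 := by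
      rw [← pow_mul, pow_add, mul_comm a 10]
    rw [h1]
    field_simp
  rw [hWe]
  obtain ⟨A, hA⟩ : ∃ A : ℝ, A = 7 / 10 * (91 + 32 * a) + (m + 1) * x ^ 4 := ⟨_, rfl⟩
  have hJ' : (cJ : ℝ) ≤ Real.exp A := by
    have h1 : (cJ : ℝ) ≤ (2 ^ (72 + 24 * a) * (21 * (N:ℝ)) ^ (m + 1)) * 2 ^ (19 + 8 * a) := by
      exact_mod_cast hJ
    have h2 : (21 * (N:ℝ)) ^ (m + 1) ≤ Real.exp ((m + 1) * x ^ 4) := by
      have h3 : 21 * (N:ℝ) ≤ Real.exp (x ^ 4) := by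
        calc 21 * (N:ℝ) = Real.exp (Real.log (21 * N)) := (Real.exp_log (by positivity)).symm
          _ ≤ _ := Real.exp_le_exp.mpr (by rw [hx]; exact hlog)
      calc (21 * (N:ℝ)) ^ (m + 1) ≤ (Real.exp (x ^ 4)) ^ (m + 1) :=
            pow_le_pow_left₀ (by positivity) h3 _
        _ = Real.exp (((m + 1 : ℕ) : ℝ) * x ^ 4) := (Real.exp_nat_mul _ _).symm
        _ = _ := by push_cast; rfl
    have h4 := two_pow_le_exp (91 + 32 * a)
    calc (cJ : ℝ) ≤ (2 ^ (72 + 24 * a) * (21 * (N:ℝ)) ^ (m + 1)) * 2 ^ (19 + 8 * a) := h1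
      _ = 2 ^ (91 + 32 * a) * (21 * (N:ℝ)) ^ (m + 1) := by
          have : (2:ℝ) ^ (91 + 32 * a) = 2 ^ (72 + 24 * a) * 2 ^ (19 + 8 * a) := by
            rw [← pow_add]
            congr 1
            ring
          rw [this]
          ring
      _ ≤ Real.exp (7 / 10 * (91 + 32 * a : ℕ)) * Real.exp ((m + 1) * x ^ 4) :=
          mul_le_mul h4 h2 (by positivity) (by positivity)
      _ = Real.exp A := by
          rw [← Real.exp_add, hA]
          push_cast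
          rfl
  have hX' : (cX : ℝ) ≤ Real.exp (7 / 10 * B) := by
    calc (cX : ℝ) ≤ 2 ^ B := by exact_mod_cast hX
      _ ≤ _ := two_pow_le_exp B
  have h4e : (4:ℝ) ≤ Real.exp (7 / 10 * (2:ℕ)) := by
    calc (4:ℝ) = 2 ^ 2 := by norm_num
      _ ≤ _ := two_pow_le_exp 2
  have hJ2 : (cJ : ℝ) ^ 2 ≤ Real.exp (2 * A) := by
    calc (cJ : ℝ) ^ 2 ≤ (Real.exp A) ^ 2 := pow_le_pow_left₀ (by positivity) hJ' _
      _ = Real.exp (2 * A) := by
          rw [← Real.exp_nat_mul]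
          push_cast
          rfl
  have hX2 : (cX : ℝ) ^ 2 ≤ Real.exp (2 * (7 / 10 * B)) := by
    calc (cX : ℝ) ^ 2 ≤ (Real.exp (7 / 10 * B)) ^ 2 := pow_le_pow_left₀ (by positivity) hX' _
      _ = _ := by
          rw [← Real.exp_nat_mul]
          push_cast
          rfl
  calc 4 * (cJ : ℝ) ^ 2 * (cX : ℝ) ^ 2 * Real.exp (-W)
      ≤ Real.exp (7 / 10 * (2:ℕ)) * Real.exp (2 * A) * Real.exp (2 * (7 / 10 * B)) *
        Real.exp (-W) := by
        gcongr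
    _ = Real.exp (7 / 10 * (2:ℕ) + 2 * A + 2 * (7 / 10 * B) + -W) := by
        rw [Real.exp_add, Real.exp_add, Real.exp_add]
    _ < 1 := by
        rw [Real.exp_lt_one_iff, hA]
        push_cast
        have hx4 : 4096 * x ≤ x ^ 4 := by
          have h1 : x ^ 4 = x * (x * (x * x)) := by ring
          have h2 : 256 ≤ x * x := by nlinarith
          have h3 : 4096 ≤ x * (x * x) := by nlinarith
          rw [h1]
          nlinarith
        have hB : (0:ℝ) ≤ B := Nat.cast_nonneg _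
        linarith

theorem c2num {x : ℝ} (hx : 16 ≤ x) :
    18 * (4 * (1 / (2 ^ 34 * x ^ 10)) + 1 / (2 ^ 42 * x ^ 13)) * (2 ^ 9 * x ^ 4) ^ 2 ≤
      (1 / (16 * x)) ^ 2 := by
  have hx0 : 0 < x := by linarith
  have e : 18 * (4 * (1 / (2 ^ 34 * x ^ 10)) + 1 / (2 ^ 42 * x ^ 13)) * (2 ^ 9 * x ^ 4) ^ 2 =
      (9 / 32 + 9 / 2 ^ 15 * (1 / x ^ 3)) * (1 / (16 * x)) ^ 2 := by
    field_simp
    ring
  rw [e]
  have h1 : 1 / x ^ 3 ≤ 1 := by
    rw [div_le_one (by positivity)]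
    exact one_le_pow₀ (by linarith)
  have h2 : 9 / 32 + 9 / 2 ^ 15 * (1 / x ^ 3) ≤ 1 := by
    norm_num
    norm_num at h1
    linarith
  calc _ ≤ 1 * (1 / (16 * x)) ^ 2 := mul_le_mul_of_nonneg_right h2 (by positivity)
    _ = _ := one_mul _

theorem c3num {x : ℝ} (hx : 16 ≤ x) :
    2 * (1 / (2 ^ 34 * x ^ 10)) +
      4 * (2 ^ 37 * x ^ 12) * (1 / (2 ^ 34 * x ^ 10)) / (2 ^ 9 * x ^ 4) + 1 / (2 ^ 42 * x ^ 13)
      ≤ 1 / (16 * x) * (1 - (1 - 2 / x) ^ 2) := by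
  have hx0 : 0 < x := by linarith
  have e1 : 4 * (2 ^ 37 * x ^ 12) * (1 / (2 ^ 34 * x ^ 10)) / (2 ^ 9 * x ^ 4) =
      1 / (16 * x ^ 2) := by
    field_simp
    ring
  have e2 : 1 / (16 * x) * (1 - (1 - 2 / x) ^ 2) = 1 / (16 * x ^ 2) * (4 - 4 / x) := by
    field_simp
    ring
  have e3 : 2 * (1 / (2 ^ 34 * x ^ 10)) ≤ 1 / (16 * x ^ 2) := by
    have e4 : 2 * (1 / (2 ^ 34 * x ^ 10)) = 1 / (16 * x ^ 2) * (1 / (2 ^ 29 * x ^ 8)) := by
      field_simp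
      ring
    rw [e4]
    apply mul_le_of_le_one_right (by positivity)
    rw [div_le_one (by positivity)]
    have : 1 ≤ x ^ 8 := one_le_pow₀ (by linarith)
    linarith
  have e6 : 1 / (2 ^ 42 * x ^ 13) ≤ 1 / (16 * x ^ 2) := by
    have e4 : 1 / (2 ^ 42 * x ^ 13) = 1 / (16 * x ^ 2) * (1 / (2 ^ 38 * x ^ 11)) := by
      field_simp
      ring
    rw [e4]
    apply mul_le_of_le_one_right (by positivity)
    rw [div_le_one (by positivity)]
    have : 1 ≤ x ^ 11 := one_le_pow₀ (by linarith)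
    linarith
  have e5 : 4 / x ≤ 1 / 4 := by
    rw [div_le_div_iff₀ hx0 (by norm_num)]
    linarith
  rw [e1, e2]
  have h0 : 0 < 1 / (16 * x ^ 2) := by positivity
  nlinarith

theorem c6num {x : ℝ} (hx : 16 ≤ x) :
    100 * (2 ^ 9 * x ^ 4) ^ 2 ≤ 2 ^ 33 * x ^ 10 * (1 / (16 * x)) ^ 2 := by
  have hx0 : 0 < x := by linarith
  have e : 2 ^ 33 * x ^ 10 * (1 / (16 * x)) ^ 2 = 128 * (2 ^ 9 * x ^ 4) ^ 2 := by
    field_simp
    ring
  rw [e]
  have : 0 ≤ (2 ^ 9 * x ^ 4) ^ 2 := sq_nonneg _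
  linarith

theorem c5num (a : ℕ) (ha : 4 ≤ a) :
    2 * rr (2 ^ a) ^ (2 ^ a * (a + 5)) ≤ dl (2 ^ a) := by
  have hq : 16 ≤ 2 ^ a := by
    calc 16 = 2 ^ 4 := by norm_num
      _ ≤ 2 ^ a := Nat.pow_le_pow_right (by norm_num) ha
  have h16 : (16:ℝ) ≤ ((2 ^ a : ℕ) : ℝ) := by exact_mod_cast hq
  have hr0 : 0 ≤ rr (2 ^ a) := by
    unfold rr
    have : 2 / ((2 ^ a : ℕ) : ℝ) ≤ 2 / 16 :=
      div_le_div_of_nonneg_left (by norm_num) (by norm_num) h16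
    linarith
  have h1 : rr (2 ^ a) ^ (2 ^ a) ≤ 1 / 4 := by
    have h2 : rr (2 ^ a) ^ (2 ^ a) ≤ Real.exp (-2) := by
      unfold rr
      exact Real.one_sub_div_pow_le_exp_neg (by linarith)
    have h3 : Real.exp (-2) ≤ 1 / 4 := by
      rw [Real.exp_neg, inv_eq_one_div]
      apply one_div_le_one_div_of_le (by norm_num)
      have h4 : (2.7182818283 : ℝ) < Real.exp 1 := Real.exp_one_gt_d9
      have h5 : Real.exp 2 = Real.exp 1 * Real.exp 1 := by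
        rw [← Real.exp_add]
        norm_num
      rw [h5]
      nlinarith
    linarith
  have h2 : rr (2 ^ a) ^ (2 ^ a * (a + 5)) ≤ (1 / 4) ^ (a + 5) := by
    rw [pow_mul]
    exact pow_le_pow_left₀ (pow_nonneg hr0 _) h1 _
  have h3 : dl (2 ^ a) = 1 / (16 * 2 ^ a) := by
    unfold dl
    push_cast
    rfl
  rw [h3]
  have h4 : (1 / 4 : ℝ) ^ (a + 5) = 1 / (1024 * 4 ^ a) := by
    rw [one_div_pow, pow_add]
    congr 1
    norm_num
    ring
  rw [h4] at h2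
  have h5 : (2:ℝ) ^ a ≤ 4 ^ a := pow_le_pow_left₀ (by norm_num) (by norm_num) _
  have h6 : (0:ℝ) < 2 ^ a := by positivity
  have h7 : 2 * (1 / (1024 * (4:ℝ) ^ a)) ≤ 1 / (16 * 2 ^ a) := by
    rw [mul_one_div, div_le_div_iff₀ (by positivity) (by positivity)]
    nlinarith
  linarith

/-- row CFG2 -/
theorem cfg2 (hNet : NETStmt) (hG : GRM2Stmt) : CFG2Stmt := by
  intro a B N ha hK hN hlog
  obtain ⟨X, Ω, iX, iΩ, S, hΩ, hcX⟩ := hK
  have hq : 16 ≤ 2 ^ a := by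
    calc 16 = 2 ^ 4 := by norm_num
      _ ≤ 2 ^ a := Nat.pow_le_pow_right (by norm_num) ha
  obtain ⟨x, hx⟩ : ∃ x : ℝ, x = 2 ^ a := ⟨_, rfl⟩
  have hx16 : 16 ≤ x := by
    rw [hx]
    exact_mod_cast hq
  have hx0 : 0 < x := by linarith
  have hcast : ((2 ^ a : ℕ) : ℝ) = x := by rw [hx]; push_cast; rfl
  have hrr : rr (2 ^ a) = 1 - 2 / x := by unfold rr; rw [hcast]
  have hdl : dl (2 ^ a) = 1 / (16 * x) := by unfold dl; rw [hcast]
  have hpw : ∀ u v : ℕ, (2:ℝ) ^ (u + v * a) = 2 ^ u * x ^ v := by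
    intro u v
    rw [hx, ← pow_mul, pow_add, mul_comm a v]
  have hNpos : 0 < N := by
    refine lt_of_lt_of_le ?_ hN
    have h1 : 0 < 2 ^ (4 * a) := by positivity
    have h2 : 0 < B + 2 ^ (4 * a) := by omega
    exact Nat.mul_pos (by positivity) h2
  obtain ⟨J, iJ1, iJ2, iJ3, b, hJ, hb, hnet⟩ := hNet N (2 ^ (72 + 24 * a)) (Nat.one_le_two_pow) hNpos
  have hM0 : 0 < 2 ^ (19 + 8 * a) := by positivity
  have hcard : Fintype.card (J × Fin (2 ^ (19 + 8 * a))) = Fintype.card J * 2 ^ (19 + 8 * a) := by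
    rw [Fintype.card_prod, Fintype.card_fin]
  have hτ : (0 : ℝ) < 1 / 2 ^ (34 + 10 * a) := by positivity
  have hnum := cfgnum a B N (Fintype.card (J × Fin (2 ^ (19 + 8 * a)))) (Fintype.card X) ha hN hlog
    (by rw [hcard]; exact Nat.mul_le_mul_right _ hJ) hcX
  obtain ⟨s, hs1, hs2, hs3⟩ := hG N (J × Fin (2 ^ (19 + 8 * a))) X Ω J S.σ S.K b
    (1 / 2 ^ (34 + 10 * a)) hNpos hτ hΩ S.abs_σ S.avg hb
    (by rw [hcard]; exact Nat.le_mul_of_pos_right _ hM0) hnum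
  have hsqrt : 2 * √((2 ^ (72 + 24 * a) : ℕ) : ℝ) = 2 ^ 37 * x ^ 12 := by
    have e : ((2 ^ (72 + 24 * a) : ℕ) : ℝ) = (2 ^ 36 * x ^ 12) ^ 2 := by
      push_cast
      rw [hpw]
      ring
    rw [e, Real.sqrt_sq (by positivity)]
    ring
  refine ⟨2 ^ (33 + 10 * a), 2 ^ a * (a + 5), 2 ^ (19 + 8 * a), X, Ω, J, iΩ, iJ2, iX, iJ1,
    1 / 2 ^ (42 + 13 * a), ⟨?_⟩⟩
  exact
    { S := S
      b := b
      s := s
      R := 2 ^ 9 * x ^ 4
      R' := 2 ^ 37 * x ^ 12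
      τ := 1 / 2 ^ (34 + 10 * a)
      hΩ := hΩ
      hq := hq
      hN := hNpos
      hg := Nat.mul_pos (by positivity) (by omega)
      hM0 := hM0
      hM := by
        push_cast
        rw [hpw]
        apply le_of_eq
        ring
      hR := by
        have : (1 : ℝ) ≤ x ^ 4 := one_le_pow₀ (by linarith)
        linarith
      hR' := by
        have : (1 : ℝ) ≤ x ^ 12 := one_le_pow₀ (by linarith)
        linarith
      hτ := hτ
      hκ := by positivity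
      hb := hb
      net := fun ψ => by
        obtain ⟨j, hj⟩ := hnet ψ
        rw [hsqrt] at hj
        exact ⟨j, hj⟩
      sgn := hs1
      gram := hs2
      orth := hs3
      c1 := by
        rw [hpw]
        have e : 2 * (1 / (2 ^ 34 * x ^ 10)) * (2 ^ 9 * x ^ 4) ^ 2 = 1 / (2 ^ 15 * x ^ 2) := by
          field_simp
        rw [e, div_le_one (by positivity)]
        nlinarith
      c2 := by
        rw [hpw, hpw, hdl]
        exact c2num hx16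
      c3 := by
        rw [hpw, hpw, hdl, hrr]
        exact c3num hx16
      c4 := by
        rw [hpw, hdl]
        apply le_of_eq
        field_simp
        ring
      c5 := c5num a ha
      c6 := by
        rw [hdl]
        have e : ((2 ^ (33 + 10 * a) : ℕ) : ℝ) = 2 ^ 33 * x ^ 10 := by
          push_cast
          rw [hpw]
        rw [e]
        exact c6num hx16 }

end Pool.Agent.RHO.H36d
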