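import Pool.Agent.RHO.Stmts2
import Pool.Agent.RHO.GRM
import Pool.Agent.RHO.AVG

/-!
# MP_ca8ef3_an, stage 2: row GRM2 (the Gram lemma for a kernel)
-/

set_option autoImplicit false

namespace Pool.Agent.RHO.H36d

open Finset Pool.Agent.RHO

/-- The sign of the copy `j` of `x` in a sample. -/
noncomputable def sgk {J X Ω : Type} (σ : Ω → X → ℝ) (ω : J → Bool × Ω) (j : J) (x : X) : ℝ :=
  (if (ω j).1 then 1 else -1) * σ (ω j).2 x

theorem cases_of_abs {v : ℝ} (h : |v| = 1) : v = 1 ∨ v = -1 := by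
  rcases abs_choice v with h' | h'
  · left; rw [← h', h]
  · right; linarith

theorem sgk_cases {J X Ω : Type} {σ : Ω → X → ℝ} (hσ : ∀ ω x, |σ ω x| = 1) (ω : J → Bool × Ω)
    (j : J) (x : X) : sgk σ ω j x = 1 ∨ sgk σ ω j x = -1 := by
  apply cases_of_abs
  unfold sgk
  rw [abs_mul, hσ]
  split_ifs <;> simp

/-- The involution changing the free sign of the copy `j`. -/
def flipk {J Ω : Type} [DecidableEq J] (j : J) : (J → Bool × Ω) ≃ (J → Bool × Ω) where
  toFun ω := Function.update ω j (!(ω j).1, (ω j).2)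
  invFun ω := Function.update ω j (!(ω j).1, (ω j).2)
  left_inv ω := by
    funext i
    by_cases hi : i = j
    · subst hi
      simp
    · simp [Function.update_of_ne hi]
  right_inv ω := by
    funext i
    by_cases hi : i = j
    · subst hi
      simp
    · simp [Function.update_of_ne hi]

theorem sgk_flipk {J X Ω : Type} [DecidableEq J] (σ : Ω → X → ℝ) (j : J) (ω : J → Bool × Ω)
    (x : X) : sgk σ (flipk j ω) j x = -sgk σ ω j x := by
  unfold sgk flipk
  simp only [Equiv.coe_fn_mk, Function.update_self]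
  cases (ω j).1 <;> simp

theorem sgk_flipk_ne {J X Ω : Type} [DecidableEq J] (σ : Ω → X → ℝ) {j i : J} (h : i ≠ j)
    (ω : J → Bool × Ω) (x : X) : sgk σ (flipk j ω) i x = sgk σ ω i x := by
  unfold sgk flipk
  simp only [Equiv.coe_fn_mk, Function.update_of_ne h]

theorem avgk {J X Ω : Type} [Fintype J] [DecidableEq J] [Fintype Ω] (σ : Ω → X → ℝ)
    (K : X → X → ℝ) (hΩ : 0 < Fintype.card Ω)
    (hK : ∀ x y, ∑ ω, σ ω x * σ ω y = Fintype.card Ω * K x y) (j j' : J) (x y : X) :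
    (∑ ω : J → Bool × Ω, sgk σ ω j x * sgk σ ω j' y =
      Fintype.card (J → Bool × Ω) * (if j = j' then K x y else 0)) ∧
    ∑ ω : J → Bool × Ω, sgk σ ω j x = 0 := by
  have hΩ0 : (0:ℝ) < Fintype.card Ω := by exact_mod_cast hΩ
  constructor
  · by_cases hjj : j = j'
    · subst hjj
      rw [if_pos rfl]
      have h1 : ∑ ω : J → Bool × Ω, sgk σ ω j x * sgk σ ω j y =
          ∑ ω : J → Bool × Ω, (fun p : Bool × Ω => σ p.2 x * σ p.2 y) (ω j) := by
        refine Finset.sum_congr rfl fun ω _ => ?_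
        unfold sgk
        cases (ω j).1 <;> simp
      have h2 := avg_coord (J := J) j (fun p : Bool × Ω => σ p.2 x * σ p.2 y)
      have h3 : ∑ p : Bool × Ω, σ p.2 x * σ p.2 y = 2 * (Fintype.card Ω * K x y) := by
        rw [Fintype.sum_prod_type]
        simp only
        rw [hK, Finset.sum_const, Finset.card_univ, Fintype.card_bool, nsmul_eq_mul]
        rfl
      have h4 : (Fintype.card (Bool × Ω) : ℝ) = 2 * Fintype.card Ω := by
        rw [Fintype.card_prod, Fintype.card_bool]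
        push_cast
        ring
      rw [h3, h4] at h2
      rw [h1]
      have h5 : (2 * (Fintype.card Ω : ℝ)) ≠ 0 := by positivity
      apply mul_left_cancel₀ h5
      rw [h2]
      ring
    · rw [if_neg hjj, mul_zero]
      have h1 : ∑ ω : J → Bool × Ω, sgk σ ω j x * sgk σ ω j' y =
          ∑ ω : J → Bool × Ω, -(sgk σ ω j x * sgk σ ω j' y) := by
        rw [← Equiv.sum_comp (flipk j) (fun ω : J → Bool × Ω => sgk σ ω j x * sgk σ ω j' y)]
        refine Finset.sum_congr rfl fun ω _ => ?_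
        rw [sgk_flipk, sgk_flipk_ne σ (fun h => hjj h.symm)]
        ring
      rw [Finset.sum_neg_distrib] at h1
      linarith
  · have h1 : ∑ ω : J → Bool × Ω, sgk σ ω j x = ∑ ω : J → Bool × Ω, -(sgk σ ω j x) := by
      rw [← Equiv.sum_comp (flipk j) (fun ω : J → Bool × Ω => sgk σ ω j x)]
      refine Finset.sum_congr rfl fun ω _ => ?_
      rw [sgk_flipk]
    rw [Finset.sum_neg_distrib] at h1
    linarith

theorem grm2 (ho1 : HO1Stmt) (ho2 : HO2Stmt) : GRM2Stmt := by
  intro N J X Ω₀ J' _ _ _ _ _ σ K b τ hN hτ hΩ0 hσ hK hb hJ hlt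
  classical
  have hN' : (0:ℝ) < N := by exact_mod_cast hN
  have hc0 : (0:ℝ) < Fintype.card Ω₀ := by exact_mod_cast hΩ0
  have hK1 : ∀ x y, |K x y| ≤ 1 := by
    intro x y
    have h1 : |(Fintype.card Ω₀ : ℝ) * K x y| ≤ Fintype.card Ω₀ := by
      rw [← hK x y]
      refine (Finset.abs_sum_le_sum_abs _ _).trans (le_of_eq ?_)
      have : ∀ ω, |σ ω x * σ ω y| = 1 := by
        intro ω
        rw [abs_mul, hσ, hσ, one_mul]
      rw [Finset.sum_congr rfl fun ω _ => this ω]
      simp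
    rw [abs_mul, abs_of_pos hc0] at h1
    have h2 : (Fintype.card Ω₀ : ℝ) * |K x y| ≤ Fintype.card Ω₀ * 1 := by linarith
    exact le_of_mul_le_mul_left h2 hc0
  -- the sample space
  obtain ⟨ω₀⟩ : Nonempty Ω₀ := Fintype.card_pos_iff.1 hΩ0
  have : Nonempty (J → Bool × Ω₀) := ⟨fun _ => (true, ω₀)⟩
  obtain ⟨n, hn⟩ : ∃ n : ℝ, n = (Fintype.card (J → Bool × Ω₀) : ℝ) := ⟨_, rfl⟩
  have hn0 : 0 < n := by
    rw [hn]
    exact_mod_cast Fintype.card_pos
  -- bad events
  let bad1 : (J × X) × (J × X) → Set (Fin N → J → Bool × Ω₀) := fun p =>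
    {ω | τ * N < |∑ l, (sgk σ (ω l) p.1.1 p.1.2 * sgk σ (ω l) p.2.1 p.2.2 -
      (if p.1.1 = p.2.1 then K p.1.2 p.2.2 else 0))|}
  let bad2 : (J × X) × J' → Set (Fin N → J → Bool × Ω₀) := fun p =>
    {ω | τ * √N < |∑ l, sgk σ (ω l) p.1.1 p.1.2 * b p.2 l|}
  have hb1 : ∀ p, ((bad1 p).ncard : ℝ) ≤ 2 * n ^ N * Real.exp (-(τ ^ 2 * N / 2)) := by
    rintro ⟨⟨j, u⟩, ⟨j', u'⟩⟩
    obtain ⟨μ, hμ⟩ : ∃ μ : ℝ, μ = (if j = j' then K u u' else 0) := ⟨_, rfl⟩
    have hμ1 : |μ| ≤ 1 := by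
      rw [hμ]
      split_ifs
      · exact hK1 _ _
      · simp
    have h := ho2 N (J → Bool × Ω₀) (fun _ x => sgk σ x j u * sgk σ x j' u' - μ) (fun _ => 1)
      (τ * N) N
      (by
        intro l t
        have h := Grm33.mgf ho1 (J → Bool × Ω₀) (fun x => sgk σ x j u * sgk σ x j' u') μ
          (fun x => by
            rcases sgk_cases hσ x j u with h | h <;> rcases sgk_cases hσ x j' u' with h' | h' <;>
              simp [h, h'])
          hμ1 (by rw [hμ]; exact (avgk σ K hΩ0 hK j j' u u').1) t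
        simpa using h)
      (by positivity) hN' (by simp) (by intro l; exact zero_le_one)
    have e : bad1 ((j, u), (j', u')) =
        {ω | τ * N < |∑ l, (sgk σ (ω l) j u * sgk σ (ω l) j' u' - μ)|} := by
      rw [hμ]
    rw [e]
    refine h.trans_eq ?_
    rw [← hn]
    congr 2
    field_simp
  have hb2 : ∀ p, ((bad2 p).ncard : ℝ) ≤ 2 * n ^ N * Real.exp (-(τ ^ 2 * N / 2)) := by
    rintro ⟨⟨j, u⟩, j'⟩
    have h := ho2 N (J → Bool × Ω₀) (fun l x => sgk σ x j u * b j' l) (fun l => b j' l ^ 2)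
      (τ * √N) 1
      (by
        intro l t
        exact Grm33.mgf0 ho1 (J → Bool × Ω₀) (fun x => sgk σ x j u) (b j' l)
          (fun x => sgk_cases hσ x j u) (avgk σ K hΩ0 hK j j u u).2 t)
      (by have := Real.sqrt_pos.2 hN'; positivity) one_pos
      (by
        have := hb j'
        unfold ip at this
        simpa [sq] using this)
      (by intro l; positivity)
    refine h.trans_eq ?_
    rw [← hn]
    congr 2
    rw [mul_pow, Real.sq_sqrt hN'.le]
    ring
  -- union bound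
  have hcount : ∃ ω : Fin N → J → Bool × Ω₀, (∀ p, ω ∉ bad1 p) ∧ (∀ p, ω ∉ bad2 p) := by
    by_contra hcon
    push Not at hcon
    have hcov : (Set.univ : Set (Fin N → J → Bool × Ω₀)) ⊆ (⋃ p, bad1 p) ∪ (⋃ p, bad2 p) := by
      intro ω _
      by_cases h : ∀ p, ω ∉ bad1 p
      · obtain ⟨p, hp⟩ := hcon ω h
        exact Or.inr (Set.mem_iUnion.2 ⟨p, hp⟩)
      · push Not at h
        obtain ⟨p, hp⟩ := h
        exact Or.inl (Set.mem_iUnion.2 ⟨p, hp⟩)
    have h1 : (Set.univ : Set (Fin N → J → Bool × Ω₀)).ncard ≤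
        ∑ p, (bad1 p).ncard + ∑ p, (bad2 p).ncard := by
      calc (Set.univ : Set (Fin N → J → Bool × Ω₀)).ncard
          ≤ ((⋃ p, bad1 p) ∪ (⋃ p, bad2 p)).ncard := Set.ncard_le_ncard hcov (Set.toFinite _)
        _ ≤ (⋃ p, bad1 p).ncard + (⋃ p, bad2 p).ncard := Set.ncard_union_le _ _
        _ ≤ _ := add_le_add (Set.ncard_iUnion_le_of_fintype _) (Set.ncard_iUnion_le_of_fintype _)
    have h2 : ((Set.univ : Set (Fin N → J → Bool × Ω₀)).ncard : ℝ) = n ^ N := by
      rw [Set.ncard_univ, Nat.card_eq_fintype_card, Fintype.card_fun (α := Fin N),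
        Fintype.card_fin, hn]
      push_cast
      rfl
    have h3 : n ^ N ≤ ∑ p, ((bad1 p).ncard : ℝ) + ∑ p, ((bad2 p).ncard : ℝ) := by
      rw [← h2]
      exact_mod_cast h1
    obtain ⟨Y, hY⟩ : ∃ Y : ℝ, Y = 2 * n ^ N * Real.exp (-(τ ^ 2 * N / 2)) := ⟨_, rfl⟩
    rw [← hY] at hb1 hb2
    have hY0 : 0 ≤ Y := by rw [hY]; positivity
    have h4 : ∑ p, ((bad1 p).ncard : ℝ) ≤
        (Fintype.card J : ℝ) ^ 2 * (Fintype.card X : ℝ) ^ 2 * Y := by
      calc ∑ p, ((bad1 p).ncard : ℝ) ≤ ∑ _p : (J × X) × (J × X), Y :=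
            Finset.sum_le_sum fun p _ => hb1 p
        _ = (Fintype.card J : ℝ) ^ 2 * (Fintype.card X : ℝ) ^ 2 * Y := by
            simp only [Finset.sum_const, Finset.card_univ, nsmul_eq_mul, Fintype.card_prod]
            push_cast
            ring
    have h5 : ∑ p, ((bad2 p).ncard : ℝ) ≤
        (Fintype.card J : ℝ) ^ 2 * (Fintype.card X : ℝ) ^ 2 * Y := by
      calc ∑ p, ((bad2 p).ncard : ℝ) ≤ ∑ _p : (J × X) × J', Y :=
            Finset.sum_le_sum fun p _ => hb2 p
        _ = (Fintype.card J : ℝ) * Fintype.card X * Fintype.card J' * Y := by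
            simp only [Finset.sum_const, Finset.card_univ, nsmul_eq_mul, Fintype.card_prod]
            push_cast
            ring
        _ ≤ (Fintype.card J : ℝ) * (Fintype.card X : ℝ) ^ 2 * Fintype.card J * Y := by
            have h6 : (Fintype.card J' : ℝ) ≤ Fintype.card J := by exact_mod_cast hJ
            have h7 : (Fintype.card X : ℝ) ≤ (Fintype.card X : ℝ) ^ 2 := by
              have : Fintype.card X ≤ Fintype.card X ^ 2 := Nat.le_self_pow (by norm_num) _
              exact_mod_cast this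
            gcongr
        _ = (Fintype.card J : ℝ) ^ 2 * (Fintype.card X : ℝ) ^ 2 * Y := by ring
    have h7 : n ^ N ≤ (4 * (Fintype.card J : ℝ) ^ 2 * (Fintype.card X : ℝ) ^ 2 *
        Real.exp (-(τ ^ 2 * N / 2))) * n ^ N := by
      calc n ^ N ≤ (Fintype.card J : ℝ) ^ 2 * (Fintype.card X : ℝ) ^ 2 * Y +
            (Fintype.card J : ℝ) ^ 2 * (Fintype.card X : ℝ) ^ 2 * Y := by linarith
        _ = _ := by rw [hY]; ring
    have h8 : 0 < n ^ N := pow_pos hn0 _
    nlinarith
  obtain ⟨ω, hω1, hω2⟩ := hcount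
  refine ⟨fun j u l => sgk σ (ω l) j u,
    fun j u l => Grm33.abs_of_cases (sgk_cases hσ _ _ _), ?_, ?_⟩
  · intro j j' u u'
    have h := hω1 ((j, u), (j', u'))
    simp only [bad1, Set.mem_ofPred_eq, not_lt] at h
    refine le_trans (le_of_eq ?_) h
    congr 1
    rw [Finset.sum_sub_distrib]
    simp only [ip, Finset.sum_const, Finset.card_univ, Fintype.card_fin, nsmul_eq_mul]
    split_ifs <;> ring
  · intro j u j'
    have h := hω2 ((j, u), j')
    simp only [bad2, Set.mem_ofPred_eq, not_lt] at h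
    exact h

end Pool.Agent.RHO.H36d
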